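import Mathlib
import Pool.Agent.N290.RI.Defs

/-!
# RI/C10: the volume of the unit ball of `ℂ²` (helper395, project RI of helper290)
-/

set_option autoImplicit false

open Complex MeasureTheory Set Filter Topology
open scoped ENNReal

namespace Pool.Agent.N395.RI

open Pool.Agent.N290.RI

/-- the norm of `ℂ²` -/
theorem nm_eq (z : ℂ × ℂ) : nm z = ‖WithLp.toLp 2 z‖ := by
  rw [WithLp.prod_norm_eq_of_L2]
  rfl

theorem int_gauss : ∫ z : ℂ × ℂ, Real.exp (-(nm z) ^ (2 : ℝ)) = Real.pi ^ 2 := by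
  have h1 : ∀ z : ℂ × ℂ, Real.exp (-(nm z) ^ (2 : ℝ)) =
      Real.exp (-‖z.1‖ ^ (2 : ℝ)) * Real.exp (-‖z.2‖ ^ (2 : ℝ)) := by
    intro z
    rw [← Real.exp_add, Real.rpow_two, Real.rpow_two, Real.rpow_two, nm_sq]
    congr 1
    unfold N
    ring
  simp_rw [h1]
  have h2 : (∫ z : ℂ × ℂ, Real.exp (-‖z.1‖ ^ (2 : ℝ)) * Real.exp (-‖z.2‖ ^ (2 : ℝ))) =
      (∫ z : ℂ, Real.exp (-‖z‖ ^ (2 : ℝ))) * ∫ z : ℂ, Real.exp (-‖z‖ ^ (2 : ℝ)) := by
    rw [Measure.volume_eq_prod]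
    exact integral_prod_mul (fun z : ℂ => Real.exp (-‖z‖ ^ (2 : ℝ)))
      fun z : ℂ => Real.exp (-‖z‖ ^ (2 : ℝ))
  rw [h2, Complex.integral_exp_neg_rpow one_le_two]
  have h3 : Real.Gamma (2 / 2 + 1) = 1 := by
    norm_num
  rw [h3]
  ring

/-- **C10** -/
theorem C10 : volume B = ENNReal.ofReal (Real.pi ^ 2 / 2) := by
  have h1 : B = {z : ℂ × ℂ | nm z < 1} := by
    ext z
    change N z < 1 ↔ nm z < 1
    rw [← nm_sq z]
    constructor
    · intro h
      by_contra hcon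
      push Not at hcon
      nlinarith
    · intro h
      have := nm_nonneg z
      nlinarith
  have hH : (volume : Measure (ℂ × ℂ)).IsAddHaarMeasure :=
    inferInstanceAs ((volume : Measure ℂ).prod (volume : Measure ℂ)).IsAddHaarMeasure
  rw [h1, measure_lt_one_eq_integral_div_gamma (volume : Measure (ℂ × ℂ)) (g := nm) ?_ ?_ ?_ ?_ ?_
    (p := 2) two_pos, int_gauss]
  · have h2 : Module.finrank ℝ (ℂ × ℂ) = 4 := by
      rw [Module.finrank_prod, Complex.finrank_real_complex]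
    have h3 : Real.Gamma (((Module.finrank ℝ (ℂ × ℂ) : ℕ) : ℝ) / 2 + 1) = 2 := by
      rw [h2, show (((4 : ℕ) : ℝ) / 2 + 1) = ((2 : ℕ) : ℝ) + 1 by norm_num,
        Real.Gamma_nat_eq_factorial]
      norm_num
    rw [h3]
  · rw [nm_eq, WithLp.toLp_zero, norm_zero]
  · intro x
    rw [nm_eq, nm_eq, WithLp.toLp_neg, norm_neg]
  · intro x y
    rw [nm_eq, nm_eq, nm_eq, WithLp.toLp_add]
    exact norm_add_le _ _
  · intro x hx
    rw [nm_eq, norm_eq_zero] at hx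
    exact (WithLp.toLp_eq_zero 2).1 hx
  · intro r x
    rw [nm_eq, nm_eq, WithLp.toLp_smul, norm_smul, Real.norm_eq_abs]

end Pool.Agent.N395.RI
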